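import Mathlib
import Pool.Agent.Lib.helper4.MProd

set_option autoImplicit false

open Cardinal Set Pool.Agent.Lib.helper4.MProd

namespace Pool.Agent.Results.MP_27bb78_al.NotSmallest

/-- For `m = ℵ₀` and countably many four-element Boolean algebras there is an `(m,0)`-product with
no `m`-homomorphism to the minimal `(m,0)`-product (which exists) commuting with the embeddings. -/
theorem result : ∃ (T : Type) (A : T → Type) (_ : ∀ t, BooleanAlgebra (A t)),
    (∀ t, Nontrivial (A t)) ∧ ∃ (B : Type) (_ : BooleanAlgebra B) (i : ∀ t, BoundedLatticeHom (A t) B),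
      IsProd ℵ₀ Set.Finite i ∧
      (∃ (M : Type) (_ : BooleanAlgebra M) (j : ∀ t, BoundedLatticeHom (A t) M),
        IsProd ℵ₀ Set.Finite j ∧ Dense' Set.Finite j) ∧
      ∀ (M : Type) [BooleanAlgebra M] (j : ∀ t, BoundedLatticeHom (A t) M),
        IsProd ℵ₀ Set.Finite j → Dense' Set.Finite j →
        ¬ ∃ h : BoundedLatticeHom B M, IsMHom ℵ₀ h ∧ ∀ t a, j t a = h (i t a) := by
  have hD : #{x : Set ℕ // x.Finite} ≤ ℵ₀ :=
    Cardinal.mk_le_aleph0_iff.mpr (Set.Countable.ofPred_finite (α := ℕ)).to_subtype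
  exact ⟨ℕ, fun _ => Set Prop, inferInstance, fun _ => inferInstance, _, inferInstance, cyl Set.Finite,
    cyl_prod _ _ (by simp) hD (fun _ _ h h' => h.subset h') finite_singleton,
    ⟨_, _, _, ro_min finite_empty (fun _ _ => Finite.union) _ le_rfl (by simp) hD
      (fun _ _ h h' => h.subset h') finite_singleton⟩,
    fun M _ j hj hd => no_hom _ _ hD finite_empty (fun _ t h => h.insert t) infinite_univ j hj.2.2.1 hd⟩

end Pool.Agent.Results.MP_27bb78_al.NotSmallest
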